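import Pool.Agent.Work.MP_392c8e_co_t1.Reducer

/-!
# Reducers: two pentagons, the first with a vertex of degree two
-/

namespace Pool.Agent.T1Red

/-- Two pentagons `x p1 p2 p3 p4` and `p2 p3 t3 z t2` and the vertex `t1`. Labels: `t4` = 0, `s1` =
1, `s` = 2, `s3` = 3. Interior vertices: `x` = 4, `p1` = 5, `p2` = 6, `p3` = 7, `p4` = 8, `t1` =
9, `t2` = 10, `t3` = 11, `z` = 12. -/
def FreeMid9 : Red where
  t := 4
  m := 9
  ed := [(4, 5), (4, 8), (5, 6), (6, 7), (7, 8), (5, 9), (6, 10), (7, 11), (10, 12), (12, 11), (9, 10), (8, 0), (9, 1), (12, 2), (11, 3)]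
  nw := []
  ne := [0, 0, 8, 4]

/-- The certificate of FreeMid9. -/
def FreeMid9Cert : List (List Nat) :=
  [[99873, 153894], [151844, 100646, 107033], [108057, 149016, 152100], [39206], [39492], [41496],
  [108049], [37448], [108049], [132705], [100642], [108057], [39204, 42521, 137825, 133522],
  [37156, 135752, 135556], [37156, 135560, 135752, 132705, 132504], [99864], [39524], [67169],
  [149794], [149778], [66968], [148882], [153990], [20868], [26137, 22818, 67986, 67169], [25113,
  74312, 74118, 67986, 68196], [24984, 74116, 75337]]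

theorem check_FreeMid9 : check FreeMid9 FreeMid9Cert = true := by
  decide +kernel

/-- Two pentagons `x p1 p2 p3 p4` and `p2 p3 t3 z t2`, `t2` has degree two. Labels: `t1` = 0, `s` =
1, `s3` = 2, `t4` = 3. Interior vertices: `x` = 4, `p1` = 5, `p2` = 6, `p3` = 7, `p4` = 8, `t2`
= 9, `t3` = 10, `z` = 11. -/
def FreeMidA : Red where
  t := 4
  m := 8
  ed := [(4, 5), (4, 8), (5, 6), (6, 7), (7, 8), (6, 9), (7, 10), (9, 11), (11, 10), (5, 0), (11, 1), (10, 2), (8, 3)]
  nw := []
  ne := [0, 4, 2, 0]

/-- The certificate of FreeMidA. -/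
def FreeMidACert : List (List Nat) :=
  [[37156, 37401, 27161, 24870], [6552], [10776], [24868], [9828, 33380, 34180], [10825], [18820],
  [5508], [5508, 18822, 19012], [27204, 38022, 38025, 37400, 37412], [10825], [10820], [34372],
  [9796, 33929], [9796], [34372], [34372], [19017, 6297, 6278, 6680, 5668], [38276, 26694, 26697,
  24870, 24856], [5254], [6532], [34180], [34180, 9286, 10313, 9508, 10520], [18502], [34180],
  [34182], [5508, 18840]]

theorem check_FreeMidA : check FreeMidA FreeMidACert = true := by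
  decide +kernel

/-- Two pentagons `x p1 p2 p3 p4` and `p2 p3 t3 z t2`, `z` has degree two. Labels: `t1` = 0, `s2` =
1, `s3` = 2, `t4` = 3. Interior vertices: `x` = 4, `p1` = 5, `p2` = 6, `p3` = 7, `p4` = 8, `t2`
= 9, `t3` = 10, `z` = 11. -/
def FreeMidZ : Red where
  t := 4
  m := 8
  ed := [(4, 5), (4, 8), (5, 6), (6, 7), (7, 8), (6, 9), (7, 10), (9, 11), (11, 10), (5, 0), (9, 1), (10, 2), (8, 3)]
  nw := []
  ne := [14, 13, 11, 7]

/-- The certificate of FreeMidZ. -/
def FreeMidZCert : List (List Nat) :=
  [[6680], [26904], [38436], [10825], [16792, 27161, 27209, 24870], [34404], [6534], [18820],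
  [38278, 37401, 34377, 38182], [10820], [10776, 27209, 37412, 6278], [37412], [9796], [10820],
  [34372], [34372], [19017], [34372], [38022], [6552], [9510, 38276, 24856, 9289], [18820],
  [18822], [34180], [5508], [18820], [5508]]

theorem check_FreeMidZ : check FreeMidZ FreeMidZCert = true := by
  decide +kernel

/-- Two pentagons `x p1 p2 p3 p4` and `p2 p3 t3 z t2`; new edges `t1 n`, `n t4`, `s2 s3`. Labels:
`t1` = 0, `s2` = 1, `s` = 2, `s3` = 3, `t4` = 4, `n` = 5. Interior vertices: `x` = 6, `p1` = 7,
`p2` = 8, `p3` = 9, `p4` = 10, `t2` = 11, `t3` = 12, `z` = 13. -/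
def Mid5 : Red where
  t := 6
  m := 8
  ed := [(6, 7), (6, 10), (7, 8), (8, 9), (9, 10), (8, 11), (9, 12), (11, 13), (13, 12), (7, 0), (11, 1), (13, 2), (12, 3), (10, 4)]
  nw := [(0, 5), (5, 4), (1, 3)]
  ne := [0, 4, 10, 4, 0, 0]

/-- The certificate of Mid5. -/
def Mid5Cert : List (List Nat) :=
  [[37401, 37412, 24856, 24870], [24868, 24856, 37412, 37144], [10520, 37158, 37144], [5412],
  [26904], [5412, 24856, 25188], [34372, 34180, 27209, 18840], [24868], [9508, 34182, 34404],
  [9508, 34372, 34180], [9508], [9508, 24868, 24856], [18840, 19012, 38276, 34404], [18820],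
  [34184], [6532, 37144, 37156], [6681, 19017, 18824], [6532, 18820, 19012], [37144, 37156, 24856,
  24868, 24678], [24678, 24868, 24856, 37156, 37144], [6532, 37156, 37144], [37156], [6532],
  [5412, 24856, 24868, 24678, 9286], [34180, 18820], [34180], [34180, 9508, 9286], [34180, 9508,
  9286], [18820], [9286, 9508, 16486, 24868, 24856], [18820, 34180], [18820], [34182], [6532,
  37156, 37144], [18820, 5508], [6532, 18820], [37401, 37156, 24856, 24870], [24868, 24856, 37412,
  37144], [10520, 37158, 37144], [5412], [26904], [5412, 24856, 25188], [34372, 34184, 27209,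
  18840], [24868], [9508, 34182, 34404], [9508, 34372, 34180], [9508], [9508, 24868, 24856],
  [18820, 19017, 34182, 34404], [18820], [34184], [6532, 37144, 37156], [6681, 19012, 18824],
  [6532, 18820, 19012], [37017, 25112, 37400, 37412, 25124], [25124, 25112, 37412, 37400, 37017],
  [6680, 37412, 37400, 37017, 6281], [9796], [25112], [9796, 25112, 25124], [34372, 19012],
  [34372], [34372, 9796], [9796, 34372], [9289], [9796, 25112, 25124], [19012, 34372], [19012],
  [34372], [6281, 6680, 32921, 37400, 37412], [19012, 6680, 5257], [19012, 6680, 6281]]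

theorem check_Mid5 : check Mid5 Mid5Cert = true := by
  decide +kernel

end Pool.Agent.T1Red
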