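import Pool.Agent.Work.MP_392c8e_co_t1.Apply
import Pool.Agent.Work.MP_392c8e_co_t1.Inst.Mid

/-!
# The reducers have the extension property, and the data of the reductions
-/

namespace Pool.Agent.T1Red

set_option synthInstance.maxSize 200000

theorem FreeMid9_ext : FreeMid9.Ext [] :=
  Red.ext_of_check check_FreeMid9 (by decide)

theorem FreeMid9_data : Data FreeMid9 []
    [] [] [] [] [] := by
  constructor <;> decide

theorem FreeMidA_ext : FreeMidA.Ext [] :=
  Red.ext_of_check check_FreeMidA (by decide)

theorem FreeMidA_data : Data FreeMidA []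
    [] [] [] [] [] := by
  constructor <;> decide

theorem FreeMidZ_ext : FreeMidZ.Ext [] :=
  Red.ext_of_check check_FreeMidZ (by decide)

theorem FreeMidZ_data : Data FreeMidZ []
    [] [] [] [] [] := by
  constructor <;> decide

theorem Mid5_ext : Mid5.Ext [] :=
  Red.ext_of_check check_Mid5 (by decide)

theorem Mid5_data : Data Mid5 [(5, 6)]
    [(0, [7], 6), (6, [10], 4), (1, [11, 13, 12], 3)] [] [] [(1, 3)] [(0, 4)] := by
  constructor <;> decide

end Pool.Agent.T1Red
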