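import Pool.Agent.Work.MP_392c8e_co_t1.Reducer

/-!
# Reducers: pentagons with a vertex of degree two
-/

namespace Pool.Agent.T1Red

/-- A pentagon `x p1 p2 p3 p4` with a 2-vertex `x`; new edges `t1 t2`, `t3 t4`. Labels: `t1` = 0,
`t2` = 1, `t3` = 2, `t4` = 3. Interior vertices: `x` = 4, `p1` = 5, `p2` = 6, `p3` = 7, `p4` =
8. -/
def S1a : Red where
  t := 4
  m := 5
  ed := [(4, 5), (5, 6), (6, 7), (7, 8), (8, 4), (5, 0), (6, 1), (7, 2), (8, 3)]
  nw := [(0, 1), (2, 3)]
  ne := [2, 5, 10, 4]

/-- The certificate of S1a. -/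
def S1aCert : List (List Nat) :=
  [[388, 292], [388], [580], [580, 280], [580], [580], [580], [580, 536], [70], [70], [134, 292],
  [134]]

theorem check_S1a : check S1a S1aCert = true := by
  decide +kernel

/-- A pentagon `x p1 p2 p3 p4` with a 2-vertex `x`; new edges `t1 n`, `n t4`, `t2 t3`. Labels: `t1`
= 0, `t2` = 1, `t3` = 2, `t4` = 3, `n` = 4. Interior vertices: `x` = 5, `p1` = 6, `p2` = 7, `p3`
= 8, `p4` = 9. -/
def S1b : Red where
  t := 5
  m := 5
  ed := [(5, 6), (6, 7), (7, 8), (8, 9), (9, 5), (6, 0), (7, 1), (8, 2), (9, 3)]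
  nw := [(0, 4), (4, 3), (1, 2)]
  ne := [2, 5, 10, 4, 0]

/-- The certificate of S1b. -/
def S1bCert : List (List Nat) :=
  [[580, 388], [388, 580], [280, 292], [388], [292, 280], [580], [70], [70], [292, 280], [134],
  [102, 292, 280], [292, 70], [580, 388], [388, 580], [280, 292], [388], [292, 280], [580], [580],
  [580], [153, 548, 536], [536, 137], [536, 548], [580]]

theorem check_S1b : check S1b S1bCert = true := by
  decide +kernel

/-- Two pentagons as in `F55`, the vertex `a0` has degree two; new edges `t1 t2`, `t3 t4`. Labels: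
`1` = 0, `2` = 1, `3` = 2, `4` = 3, `5` = 4. Interior vertices: `s` = 5, `s'` = 6, `a0` = 7,
`a1` = 8, `a2` = 9, `b3` = 10, `b4` = 11, `b5` = 12. -/
def S2 : Red where
  t := 5
  m := 8
  ed := [(5, 6), (5, 7), (7, 8), (8, 9), (9, 6), (6, 10), (10, 11), (11, 12), (12, 5), (8, 0), (9, 1), (10, 2), (11, 3), (12, 4)]
  nw := [(0, 1), (2, 3)]
  ne := [2, 1, 8, 20, 8]

/-- The certificate of S2. -/
def S2Cert : List (List Nat) :=
  [[39012, 24728], [37257, 24710], [25752, 37001], [24726, 36969], [26178], [34185], [24646],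
  [33944], [18502], [34185], [37476], [18582], [4678], [36964], [36964], [36964], [35425, 33896,
  9825, 9321], [33896, 9609], [8265, 33897, 34369, 9793], [8265, 33929], [6214], [34185], [39521],
  [36964], [8262], [24724], [4678], [9618], [18502], [9609], [8262], [24728], [18502, 6214],
  [6546, 6294, 18834, 18502], [6214, 18582], [6214, 6529, 18582, 18818]]

theorem check_S2 : check S2 S2Cert = true := by
  decide +kernel

/-- The configuration `X55` with a third pentagon `c5 c0 c1 u v`. Labels: `t2` = 0, `tu` = 1, `tv` =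
2, `t4` = 3. Interior vertices: `c0` = 4, `c1` = 5, `c2` = 6, `c3` = 7, `c4` = 8, `c5` = 9, `x`
= 10, `u` = 11, `v` = 12. -/
def X55A : Red where
  t := 4
  m := 9
  ed := [(4, 5), (5, 6), (6, 7), (7, 8), (8, 9), (9, 4), (10, 4), (10, 7), (5, 11), (11, 12), (12, 9), (6, 0), (11, 1), (12, 2), (8, 3)]
  nw := []
  ne := [0, 4, 2, 0]

/-- The certificate of X55A. -/
def X55ACert : List (List Nat) :=
  [[107041, 156193], [140836], [147857], [148066], [139801, 136742, 43297, 42596], [139801],
  [107105], [35217], [26913, 22034, 74265, 70182], [156177, 98918, 100497, 108644], [70182],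
  [156177], [42084], [38418, 136742, 139801, 136344], [149090], [22050], [38418], [17506, 18577,
  22034, 70182, 74265, 75876, 71832], [102802, 147865, 152728, 148578], [98705], [147857],
  [26897], [34961, 43281, 33890, 135462, 139545, 136344, 140388], [26897], [26904], [34961],
  [26897, 76057, 75876, 69926]]

theorem check_X55A : check X55A X55ACert = true := by
  decide +kernel

end Pool.Agent.T1Red
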