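import Pool.Agent.Work.MP_392c8e_co_t1.Reducer

/-!
# Reducers: two pentagons with two common edges
-/

namespace Pool.Agent.T1Red

/-- A hexagon `c0 … c5` with a vertex `x` joined to `c0` and `c3`; the new graph keeps the hexagon.
Labels: `t1` = 0, `t2` = 1, `t4` = 2, `t5` = 3, `d0` = 4, `d1` = 5, `d2` = 6, `d3` = 7, `d4` =
8, `d5` = 9. Interior vertices: `c0` = 10, `c1` = 11, `c2` = 12, `c3` = 13, `c4` = 14, `c5` =
15, `x` = 16. -/
def Theta : Red where
  t := 10
  m := 7
  ed := [(10, 11), (11, 12), (12, 13), (13, 14), (14, 15), (15, 10), (16, 10), (16, 13), (11, 0), (12, 1), (14, 2), (15, 3)]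
  nw := [(4, 5), (5, 6), (6, 7), (7, 8), (8, 9), (9, 4), (0, 5), (1, 6), (2, 8), (3, 9)]
  ne := [6, 1, 9, 4, 0, 0, 0, 0, 0, 0]

/-- The certificate of Theta. -/
def ThetaCert : List (List Nat) :=
  [[6424], [6532], [6296], [2441], [8473], [393, 8473, 582], [8473], [393], [4390], [582, 4390,
  393], [4390], [10308], [5668], [9796], [4390], [4390], [], [], [], [], [], [], [], [], [6532,
  393, 582], [6532], [10308], [2441], [9796], [393, 8473, 582], [393], [393], [6424], [6532],
  [6296], [2441], [8473], [393, 8473, 582], [8473], [393], [6424], [6532], [8729], [8729], [8473],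
  [393, 8473, 582], [8729], [5252], [4390], [582, 4390, 393], [4646], [582], [5668], [9796],
  [9316], [9764], [582, 4390, 393], [6532], [582], [582], [9796], [582, 393, 9796], [9764],
  [5252], [], [], [], [], [], [], [], [], [4390], [582, 4390, 393], [4646], [582], [5668], [9796],
  [9316], [9764], [9828], [5256], [1126], [6536], [9764], [5252], [5252], [5252], [9828], [5256],
  [1126], [6536], [9764], [5252], [5252], [5252], [9828], [5256], [1126], [6536], [9764], [5252],
  [5252], [5252], [9316], [9828], [9316], [1126], [9316], [9764], [9316], [5252], [9316], [9828],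
  [9316], [1126], [9316], [9764], [9316], [5252], [9828], [5256], [1126], [6536], [9764], [5252],
  [5252], [5252], [9828], [5256], [1126], [6536], [9764], [5252], [5252], [5252], [9828], [5256],
  [1126], [6536], [9764], [5252], [5252], [5252], [5272], [5256], [5272], [6536], [5272], [5252],
  [5272], [5252], [], [], [], [], [], [], [], [], [5668], [9796], [9316], [9828], [5668], [9796],
  [9316], [9764], [5668], [9796], [9316], [9828], [5668], [9796], [9316], [9764], [9796], [9796],
  [9828], [5256], [9796], [9796, 582, 393], [9764], [5252], [9796], [9796], [9828], [5256],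
  [9796], [9796, 582, 393], [9764], [5252], [9796], [9796], [9828], [5256], [9796], [9796, 582,
  393], [9764], [5252], [5668], [9796], [9316], [9828], [5668], [9796], [9316], [9764], [5668],
  [9796], [9316], [9828], [5668], [9796], [9316], [9764], [9828], [5256], [1126], [6536], [10308],
  [10308], [10308], [2441], [9828], [5256], [1126], [6536], [10308], [10308], [10308], [2441],
  [9828], [5256], [1126], [6536], [10308], [10308], [10308], [2441], [9316], [9828], [9316],
  [1126], [10340], [10308], [10340], [10308], [9828], [5256], [1126], [6536], [10308], [10308],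
  [10308], [2441], [9828], [5256], [1126], [6536], [10308], [10308], [10308], [2441], [9828],
  [5256], [1126], [6536], [10308], [10308], [10308], [2441], [5272], [5256], [5272], [6536],
  [6296], [10308], [6296], [2441], [5272], [5256], [5272], [6536], [6296], [10308], [6296],
  [2441], [6424], [6532], [5272], [6536], [6424], [6532], [6296], [2441], [6424], [6532], [5272],
  [6536], [6424], [6532], [6296], [2441], [], [], [], [], [], [], [], [], [6532], [6532], [1126],
  [6536], [6532, 393, 582], [6532], [10308], [2441], [6532], [6532], [1126], [6536], [6532, 393,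
  582], [6532], [10308], [2441], [6532], [6532], [1126], [6536], [6532, 393, 582], [6532],
  [10308], [2441], [6424], [6532], [5272], [6536], [6424], [6532], [6296], [2441], [6424], [6532],
  [5272], [6536], [6424], [6532], [6296], [2441]]

theorem check_Theta : check Theta ThetaCert = true := by
  decide +kernel

end Pool.Agent.T1Red
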