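import Pool.Agent.Work.MP_392c8e_co_t1.Reducer

/-!
# Reducers: 4-cycles next to 4-cycles and pentagons
-/

namespace Pool.Agent.T1Red

/-- Two 4-cycles `a0 a1 s1 s0` and `s0 s1 b1 b0`; four new vertices. Labels: `T0` = 0, `T1` = 1,
`T2` = 2, `T3` = 3, `n1` = 4, `n2` = 5, `n3` = 6, `n4` = 7. Interior vertices: `a0` = 8, `a1` =
9, `s1` = 10, `s0` = 11, `b1` = 12, `b0` = 13. -/
def F44 : Red where
  t := 8
  m := 6
  ed := [(8, 9), (9, 10), (10, 11), (11, 8), (10, 12), (12, 13), (13, 11), (8, 0), (9, 1), (12, 2), (13, 3)]
  nw := [(0, 4), (4, 5), (5, 1), (5, 6), (6, 3), (6, 7), (7, 2)]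
  ne := [2, 1, 8, 4, 0, 0, 0, 0]

/-- The certificate of F44. -/
def F44Cert : List (List Nat) :=
  [[2073], [1041], [1041], [2082], [1041], [1041], [1041], [1041], [2073], [1041], [1041], [2082],
  [1041], [1041], [1041], [1041], [1673], [2073], [1049], [1041], [649], [1041], [1049], [1041],
  [2073], [1041], [1041], [2082], [2065], [2065], [2065], [2065], [2073], [1041], [1041], [2082],
  [2065], [2065], [2065], [2065], [1062], [1041], [2374], [2082], [2086], [2065], [326], [2065],
  [326], [2337], [326], [2065], [326], [354], [326], [354], [393], [657], [393], [2065], [393],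
  [1553], [393], [393], [2337], [2337], [1041], [2082], [2337], [2337], [2065], [2065], [2337],
  [2337], [1041], [2082], [2337], [2337], [2065], [2065], [2374], [2337], [2374], [2082], [326],
  [2337], [326], [2065], [326], [2337], [582], [582], [326], [354], [582], [1041], [393], [657],
  [649], [657], [393], [1553], [649], [1041], [1553], [1553], [2073], [1041], [1553], [1553],
  [1041], [1041], [1553], [1553], [2073], [1041], [1553], [1553], [1041], [1041], [1673], [1553],
  [1673], [2073], [393], [1553], [649], [1041]]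

theorem check_F44 : check F44 F44Cert = true := by
  decide +kernel

/-- Two 4-cycles `a0 a1 s1 s0` and `s0 s1 b1 b0`; two new vertices. Labels: `T0` = 0, `T1` = 1, `T2`
= 2, `T3` = 3, `n1` = 4, `n2` = 5. Interior vertices: `a0` = 6, `a1` = 7, `s1` = 8, `s0` = 9,
`b1` = 10, `b0` = 11. -/
def F44H : Red where
  t := 6
  m := 6
  ed := [(6, 7), (7, 8), (8, 9), (9, 6), (8, 10), (10, 11), (11, 9), (6, 0), (7, 1), (10, 2), (11, 3)]
  nw := [(0, 4), (3, 4), (4, 5), (5, 1), (5, 2)]
  ne := [2, 1, 8, 4, 0, 0]

/-- The certificate of F44H. -/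
def F44HCert : List (List Nat) :=
  [[2073], [1041], [1041], [2082], [1041], [1041], [1041], [1041], [2073], [1041], [1041], [2082],
  [2065], [2065], [2065], [2065], [2374], [2337], [2374], [2082], [326], [2337], [326], [2065],
  [1673], [1553], [1673], [2073], [393], [1553], [649], [1041]]

theorem check_F44H : check F44H F44HCert = true := by
  decide +kernel

/-- A 4-cycle `a0 a1 s1 s0` and a pentagon `s0 s1 b0 b1 b2`; two new vertices. Labels: `T0` = 0,
`T1` = 1, `T2` = 2, `T3` = 3, `T4` = 4, `n1` = 5, `n2` = 6. Interior vertices: `a0` = 7, `a1` =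
8, `s1` = 9, `s0` = 10, `b0` = 11, `b1` = 12, `b2` = 13. -/
def F45 : Red where
  t := 7
  m := 7
  ed := [(7, 8), (8, 9), (9, 10), (10, 7), (9, 11), (11, 12), (12, 13), (13, 10), (7, 0), (8, 1), (11, 2), (12, 3), (13, 4)]
  nw := [(0, 1), (2, 5), (4, 5), (5, 6), (6, 3)]
  ne := [2, 1, 8, 20, 8, 0, 0]

/-- The certificate of F45. -/
def F45Cert : List (List Nat) :=
  [[8721], [8482], [6161], [8482], [8721], [4386], [4385, 4489], [4385], [4625], [4385], [2193],
  [2193], [4625], [4385], [4385, 4489], [4385], [8721], [8482], [4625], [4625, 8774], [8721],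
  [4386], [8729], [9233], [8721], [8481], [8721], [8721, 8774], [8721], [8481], [9753], [9250],
  [9745], [1122], [9233], [9233], [9753], [9250], [9233], [9233], [6161], [6161], [1169], [1169],
  [1169, 1122], [1122, 1169], [1169, 1122], [1122, 1169], [9745], [9745, 9798], [9233], [9233],
  [8721], [4386], [8729], [9233], [9745], [9745, 1606], [9745], [1122], [8721], [8481], [9753],
  [9250], [9745], [1122], [9233], [9233], [2193, 2146], [2146, 2193], [2193, 2146], [2146, 2193],
  [6161], [6161], [1169], [1169], [6161], [6161], [2193], [2193], [6433, 6537], [6433], [6161],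
  [6161], [8721], [8482], [6161], [8482], [6433, 2441], [6433], [1169], [1169], [4625], [4385],
  [2193], [2193]]

theorem check_F45 : check F45 F45Cert = true := by
  decide +kernel

/-- A 4-cycle with four pentagons around it; two new vertices. Labels: `T0` = 0, `T1` = 1, `T2` = 2,
`T3` = 3, `n1` = 4, `n2` = 5. Interior vertices: `a` = 6, `b` = 7, `c` = 8, `d` = 9, `p1` = 10,
`p2` = 11, `p3` = 12, `w` = 13, `q1` = 14, `q2` = 15, `q3` = 16, `z` = 17. -/
def C45555 : Red where
  t := 6
  m := 12
  ed := [(6, 7), (7, 8), (8, 9), (9, 6), (6, 10), (10, 11), (11, 12), (12, 7), (12, 13), (13, 14), (14, 8), (14, 15), (15, 16), (16, 9), (16, 17), (17, 10), (11, 0), (13, 1), (15, 2), (17, 3)]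
  nw := [(1, 4), (3, 4), (4, 5), (5, 2)]
  ne := [0, 0, 0, 0, 0, 0]

/-- The certificate of C45555. -/
def C45555Cert : List (List Nat) :=
  [[10000537], [6366241, 9987110], [6588441], [6710852], [4818532, 1197721], [6366246], [6448708],
  [2508313], [10000537], [10000409], [6588441], [9536649, 6592537], [1673608], [2201890],
  [2197860, 8800584], [9574418], [1673608], [9987089], [2169160], [1197705, 9574417], [6587929],
  [4605508], [1123873, 2169160], [2508313], [8931481], [9996441], [6588441], [9536649, 6592537],
  [8800580], [1673608], [2197798, 8800580], [9574418], [1673608], [9987089], [2201890], [9574537,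
  1197705], [4818569], [4605572], [2197860, 6366753], [1123873], [8931481], [6694417], [10000537],
  [6366241, 9987110], [4753048], [4605572], [4818564, 1197704], [6366246]]

theorem check_C45555 : check C45555 C45555Cert = true := by
  decide +kernel

end Pool.Agent.T1Red
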