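import Pool.Agent.Work.MP_392c8e_co_t1.Reducer

/-!
# Reducers: two adjacent pentagons, and the flower
-/

namespace Pool.Agent.T1Red

/-- Two pentagons `s a0 a1 a2 s'` and `s' b3 b4 b5 s`; new edges `t0 t3`, `t1 t2`, `t4 t5`. Labels:
`0` = 0, `1` = 1, `2` = 2, `3` = 3, `4` = 4, `5` = 5. Interior vertices: `s` = 6, `s'` = 7, `a0`
= 8, `a1` = 9, `a2` = 10, `b3` = 11, `b4` = 12, `b5` = 13. -/
def F55 : Red where
  t := 6
  m := 8
  ed := [(6, 7), (6, 8), (8, 9), (9, 10), (10, 7), (7, 11), (11, 12), (12, 13), (13, 6), (8, 0), (9, 1), (10, 2), (11, 3), (12, 4), (13, 5)]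
  nw := [(0, 3), (1, 2), (4, 5)]
  ne := [2, 5, 2, 16, 40, 16]

/-- The certificate of F55. -/
def F55Cert : List (List Nat) :=
  [[18706, 24856, 25108], [18706, 25108, 24856], [18532, 18580, 24676, 24724], [18964, 25108],
  [18532, 18580, 18834, 24724, 24676], [24856, 18580, 18706], [26008], [24856], [24676, 24724],
  [25108], [24724, 24676], [24984], [18706], [18706], [36964, 37012], [36964], [37012, 36964],
  [37144], [17688, 37144, 37396], [17688, 37396, 37144], [36964, 37012, 17560, 17512, 34401],
  [37396, 17512, 34337], [37012, 36964, 17512, 17560], [17688, 37144], [37144, 6418, 37396],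
  [37144, 37396, 6418], [36964, 4246, 37012], [37396], [36964, 37012, 4246], [37144], [37144],
  [37144], [36964, 4246, 37012], [37396], [36964, 37012, 4246], [37144], [37396, 6418, 37144],
  [39524, 37160, 6678], [36964, 37012, 4246], [36964], [36964, 37012, 4246], [37144], [34072,
  37144, 37396], [34072, 37144, 37396], [36964, 37012, 4246, 33944, 34401, 33896], [37396, 34337,
  33896], [36964, 37012, 4246, 33944, 33896], [37144, 34072], [6418], [6418], [24724, 24676,
  4201], [25108], [24724, 4201, 24676], [24856], [24856, 25108, 9505], [25108, 9505, 24856],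
  [24724, 24676, 4201], [25108], [24724, 4201, 24676], [24856], [18706, 25108, 24856], [18706,
  25108, 24856], [18580, 18532, 24724, 24676, 8297], [25108, 18964], [24724, 24676, 8297, 18532,
  18834, 18580], [24856, 18706, 18580], [17688, 25110, 9505], [24856, 25108, 9505], [24724, 24676,
  8297], [25108], [24724, 24676, 8297], [17688]]

theorem check_F55 : check F55 F55Cert = true := by
  decide +kernel

/-- A pentagon with five pentagons around it. Labels: `t0` = 0, `t1` = 1, `t2` = 2, `t3` = 3, `t4` =
4. Interior vertices: `c0` = 5, `c1` = 6, `c2` = 7, `c3` = 8, `c4` = 9, `s0` = 10, `s1` = 11,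
`s2` = 12, `s3` = 13, `s4` = 14, `o0` = 15, `o1` = 16, `o2` = 17, `o3` = 18, `o4` = 19. -/
def Flower : Red where
  t := 5
  m := 15
  ed := [(5, 6), (6, 7), (7, 8), (8, 9), (9, 5), (5, 10), (6, 11), (7, 12), (8, 13), (9, 14), (10, 15), (11, 16), (12, 17), (13, 18), (14, 19), (15, 11), (16, 12), (17, 13), (18, 14), (19, 10), (15, 0), (16, 1), (17, 2), (18, 3), (19, 4)]
  nw := []
  ne := [0, 0, 0, 0, 0]

/-- The certificate of Flower. -/
def FlowerCert : List (List Nat) :=
  [[715411553], [648037956], [424708680], [413225250], [681918601], [403808646], [698618465],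
  [614614628], [336751140], [442565145], [706761289], [575996441], [711196774], [446710345],
  [437283204], [559284761], [681920036], [676700689], [380125574], [648041864], [627082632],
  [307833124], [271159570], [340953368], [291113240], [354587209], [357608004], [178603556],
  [648037960], [627049880], [681656614], [673289752], [638607750], [698618001], [622891593],
  [626172178], [698618001], [715395218], [688955782], [547705377], [178587172], [538271878],
  [677478790], [2725010], [677478790], [111691140], [111694946], [90735686], [581243025],
  [2725144], [538288262], [74089542], [11093382], [538337350], [374868376], [446759449],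
  [424714642], [441518360], [110626969], [408002950], [342000153], [338317385], [337274977],
  [177474148], [304697481], [156510353], [9849380], [43338276], [1468513], [22685793],
  [279531657], [5671496], [291146008], [361892377], [89663585], [77219913], [43338276],
  [341483590], [5679633], [345131588], [22710345]]

theorem check_Flower : check Flower FlowerCert = true := by
  decide +kernel

end Pool.Agent.T1Red
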