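import Pool.Agent.Work.MP_392c8e_co_t1.Apply
import Pool.Agent.Work.MP_392c8e_co_t1.Inst.Small
import Pool.Agent.Work.MP_392c8e_co_t1.Inst.Chain2
import Pool.Agent.Work.MP_392c8e_co_t1.Inst.Theta
import Pool.Agent.Work.MP_392c8e_co_t1.Inst.Four
import Pool.Agent.Work.MP_392c8e_co_t1.Inst.More
import Pool.Agent.Work.MP_392c8e_co_t1.Inst.C545
import Pool.Agent.Work.MP_392c8e_co_t1.Inst.F55
import Pool.Agent.Work.MP_392c8e_co_t1.Inst.C3
import Pool.Agent.Work.MP_392c8e_co_t1.Inst.D5

/-!
# The reducers have the extension property, and the data of the reductions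
-/

namespace Pool.Agent.T1Red

set_option synthInstance.maxSize 200000

theorem S1a_ext : S1a.Ext [] :=
  Red.ext_of_check check_S1a (by decide)

theorem S1a_data : Data S1a []
    [(0, [5, 6], 1), (2, [7, 8], 3)] [] [] [(0, 1), (2, 3)] [] := by
  constructor <;> decide

theorem S1b_ext : S1b.Ext [] :=
  Red.ext_of_check check_S1b (by decide)

theorem S1b_data : Data S1b [(4, 5)]
    [(0, [6], 5), (5, [9], 3), (1, [7, 8], 2)] [] [] [(1, 2)] [(0, 3)] := by
  constructor <;> decide

theorem S2_ext : S2.Ext [] :=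
  Red.ext_of_check check_S2 (by decide)

theorem S2_data : Data S2 []
    [(0, [8, 9], 1), (2, [10, 11], 3)] [] [] [(0, 1), (2, 3)] [] := by
  constructor <;> decide

theorem X55A_ext : X55A.Ext [] :=
  Red.ext_of_check check_X55A (by decide)

theorem X55A_data : Data X55A []
    [] [] [] [] [] := by
  constructor <;> decide

theorem S3_ext : S3.Ext [] :=
  Red.ext_of_check check_S3 (by decide)

theorem S3_data : Data S3 []
    [(0, [6, 10], 1), (3, [16, 13, 9], 5)] [] [] [(0, 1), (3, 5)] [] := by
  constructor <;> decide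

theorem S4_ext : S4.Ext [] :=
  Red.ext_of_check check_S4 (by decide)

theorem S4_data : Data S4 []
    [(0, [6, 10, 14], 2), (3, [16, 13, 9], 5)] [] [] [(0, 2), (3, 5)] [] := by
  constructor <;> decide

theorem Theta_ext : Theta.Ext [] :=
  Red.ext_of_check check_Theta (by decide)

theorem Theta_data : Data Theta [(4, 10), (5, 11), (6, 12), (7, 13), (8, 14), (9, 15)]
    [(10, [], 11), (11, [], 12), (12, [], 13), (13, [], 14), (14, [], 15), (15, [], 10), (0, [], 11), (1, [], 12), (2, [], 14), (3, [], 15)] [] [] [] [] := by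
  constructor <;> decide

theorem F44_ext : F44.Ext [] :=
  Red.ext_of_check check_F44 (by decide)

theorem F44_data : Data F44 [(4, 8), (5, 9), (6, 13), (7, 12)]
    [(0, [], 8), (8, [], 9), (9, [], 1), (9, [10, 11], 13), (13, [], 3), (13, [], 12), (12, [], 2)] [] [] [] [] := by
  constructor <;> decide

theorem F44H_ext : F44H.Ext [] :=
  Red.ext_of_check check_F44H (by decide)

theorem F44H_data : Data F44H [(4, 9), (5, 8)]
    [(9, [6], 0), (9, [11], 3), (9, [], 8), (8, [7], 1), (8, [10], 2)] [] [] [] [(0, 3), (1, 2)] := by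
  constructor <;> decide

theorem F45_ext : F45.Ext [] :=
  Red.ext_of_check check_F45 (by decide)

theorem F45_data : Data F45 [(5, 13), (6, 12)]
    [(0, [7, 8], 1), (13, [10, 9, 11], 2), (13, [], 4), (13, [], 12), (12, [], 3)] [] [] [(0, 1)] [(2, 4)] := by
  constructor <;> decide

theorem C45555_ext : C45555.Ext [] :=
  Red.ext_of_check check_C45555 (by decide)

theorem C45555_data : Data C45555 [(4, 14), (5, 15)]
    [(14, [13], 1), (14, [8, 9, 16, 17], 3), (14, [], 15), (15, [], 2)] [] [] [] [(1, 3)] := by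
  constructor <;> decide

theorem C4F_ext : C4F.Ext [] :=
  Red.ext_of_check check_C4F (by decide)

theorem C4F_data : Data C4F [(4, 15), (5, 18), (6, 19), (7, 14), (8, 21), (9, 17)]
    [(0, [], 15), (15, [], 14), (14, [10, 11, 16], 17), (17, [], 1), (17, [], 18), (18, [], 19), (19, [], 2), (18, [12, 13, 20], 21), (21, [], 3), (14, [], 21)] [] [] [] [] := by
  constructor <;> decide

/-- The terminals may coincide. -/
theorem C4F_ext' : C4F.Ext [(0, 1), (0, 2), (0, 3), (1, 2), (1, 3), (2, 3)] :=
  Red.ext_of_check check_C4F (by decide)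

theorem C4F_data' : Data C4F [(4, 15), (5, 18), (6, 19), (7, 14), (8, 21), (9, 17)]
    [(0, [], 15), (15, [], 14), (14, [10, 11, 16], 17), (17, [], 1), (17, [], 18), (18, [], 19), (19, [], 2), (18, [12, 13, 20], 21), (21, [], 3), (14, [], 21)] [] [(0, 1), (0, 2), (0, 3), (1, 2), (1, 3), (2, 3)] [] [] := by
  constructor <;> decide

theorem T555a_ext : T555a.Ext [] :=
  Red.ext_of_check check_T555a (by decide)

theorem T555a_data : Data T555a []
    [(0, [9, 10], 1)] [] [] [(0, 1)] [] := by
  constructor <;> decide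

theorem T555b_ext : T555b.Ext [] :=
  Red.ext_of_check check_T555b (by decide)

theorem T555b_data : Data T555b []
    [(2, [11, 12], 3)] [] [] [(2, 3)] [] := by
  constructor <;> decide

theorem C545_ext : C545.Ext [] :=
  Red.ext_of_check check_C545 (by decide)

theorem C545_data : Data C545 [(6, 17), (7, 16)]
    [(0, [12, 13, 14], 2), (17, [11, 10, 15], 3), (17, [], 5), (17, [], 16), (16, [], 4)] [] [] [(0, 2)] [(3, 5)] := by
  constructor <;> decide

theorem F55_ext : F55.Ext [] :=
  Red.ext_of_check check_F55 (by decide)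

theorem F55_data : Data F55 []
    [(0, [8, 6, 7, 11], 3), (1, [9, 10], 2), (4, [12, 13], 5)] [] [] [(0, 3), (1, 2), (4, 5)] [] := by
  constructor <;> decide

theorem Flower_ext : Flower.Ext [] :=
  Red.ext_of_check check_Flower (by decide)

theorem Flower_data : Data Flower []
    [] [] [] [] [] := by
  constructor <;> decide

theorem C3_ext : C3.Ext [] :=
  Red.ext_of_check check_C3 (by decide)

theorem C3_data : Data C3 []
    [(0, [7, 8, 12, 16], 3), (1, [11, 15], 2), (4, [17, 14, 10], 6)] [] [] [(0, 3), (1, 2), (4, 6)] [] := by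
  constructor <;> decide

theorem D5_ext : D5.Ext [] :=
  Red.ext_of_check check_D5 (by decide)

theorem D5_data : Data D5 []
    [(0, [9, 10], 1), (2, [11, 12], 3), (4, [14, 15], 5), (6, [16, 17], 7)] [] [] [(0, 1), (2, 3), (4, 5), (6, 7)] [] := by
  constructor <;> decide

end Pool.Agent.T1Red
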