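import Pool.Agent.Work.MP_392c8e_co_t1.Apply
import Pool.Agent.Work.MP_392c8e_co_t1.Inst.Four
import Pool.Agent.Work.MP_392c8e_co_t1.Inst.C545

/-!
# Reducers with coinciding labels: the combinatorial data
-/

namespace Pool.Agent.T1Red

/-- The data of `F44`; `T0` may be equal to `T2` or `T3`, and `T1` may be equal to `T2`. -/
theorem dF44 : Data F44 [(4, 8), (5, 9), (6, 13), (7, 12)] [(0, [], 8), (8, [], 9), (9, [], 1), (9, [10, 11], 13), (13, [], 3), (13, [], 12), (12, [], 2)] [] [(0, 2), (0, 3), (1, 2)] [] [] := by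
  constructor <;> decide +kernel

theorem eF44 : F44.Ext [(0, 2), (0, 3), (1, 2)] :=
  Red.ext_of_check check_F44 (by decide +kernel)

/-- The data of `F44H`; `T0` may be equal to `T3`, and `T1` may be equal to `T2`. -/
theorem dF44H : Data F44H [(4, 9), (5, 8)] [(0, [6], 9), (3, [11], 9), (9, [], 8), (8, [7], 1), (8, [10], 2)] [] [(0, 3), (1, 2)] [] [(0, 3), (1, 2)] := by
  constructor <;> decide +kernel

theorem eF44H : F44H.Ext [(0, 3), (1, 2)] :=
  Red.ext_of_check check_F44H (by decide +kernel)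

/-- The data of `F45` with coinciding labels. -/
theorem dF45a : Data F45 [(5, 13), (6, 12)] [(0, [7, 8], 1), (13, [10, 9, 11], 2), (4, [], 13), (13, [], 12), (12, [], 3)] [] [(0, 2), (0, 4), (1, 3), (2, 4)] [(0, 1)] [(2, 4)] := by
  constructor <;> decide +kernel

theorem eF45a : F45.Ext [(0, 2), (0, 4), (1, 3), (2, 4)] :=
  Red.ext_of_check check_F45 (by decide +kernel)

/-- The data of `F45` with coinciding labels. -/
theorem dF45b : Data F45 [(5, 13), (6, 12)] [(0, [7, 8], 1), (13, [10, 9, 11], 2), (4, [], 13), (13, [], 12), (12, [], 3)] [] [(0, 2), (0, 3), (0, 4), (2, 4)] [(0, 1)] [(2, 4)] := by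
  constructor <;> decide +kernel

theorem eF45b : F45.Ext [(0, 2), (0, 3), (0, 4), (2, 4)] :=
  Red.ext_of_check check_F45 (by decide +kernel)

/-- The data of `F45` with coinciding labels. -/
theorem dF45c : Data F45 [(5, 13), (6, 12)] [(0, [7, 8], 1), (13, [10, 9, 11], 2), (4, [], 13), (13, [], 12), (12, [], 3)] [] [(1, 2), (1, 3), (1, 4), (2, 4)] [(0, 1)] [(2, 4)] := by
  constructor <;> decide +kernel

theorem eF45c : F45.Ext [(1, 2), (1, 3), (1, 4), (2, 4)] :=
  Red.ext_of_check check_F45 (by decide +kernel)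

/-- The data of `F45` with coinciding labels. -/
theorem dF45d : Data F45 [(5, 13), (6, 12)] [(0, [7, 8], 1), (13, [10, 9, 11], 2), (4, [], 13), (13, [], 12), (12, [], 3)] [] [(0, 3), (1, 2), (1, 4), (2, 4)] [(0, 1)] [(2, 4)] := by
  constructor <;> decide +kernel

theorem eF45d : F45.Ext [(0, 3), (1, 2), (1, 4), (2, 4)] :=
  Red.ext_of_check check_F45 (by decide +kernel)

/-- The data of `C545` with coinciding labels. -/
theorem dC545a : Data C545 [(6, 17), (7, 16)] [(0, [12, 13, 14], 2), (17, [11, 10, 15], 3), (5, [], 17), (17, [], 16), (16, [], 4)] [] [(0, 4), (1, 3), (1, 4), (1, 5), (2, 3), (2, 5), (3, 5)] [(0, 2)] [(3, 5)] := by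
  constructor <;> decide +kernel

theorem eC545a : C545.Ext [(0, 4), (1, 3), (1, 4), (1, 5), (2, 3), (2, 5), (3, 5)] :=
  Red.ext_of_check check_C545 (by decide +kernel)

/-- The data of `C545` with coinciding labels. -/
theorem dC545b : Data C545 [(6, 17), (7, 16)] [(0, [12, 13, 14], 2), (17, [11, 10, 15], 3), (5, [], 17), (17, [], 16), (16, [], 4)] [] [(0, 3), (0, 5), (1, 3), (1, 4), (1, 5), (2, 4), (3, 5)] [(0, 2)] [(3, 5)] := by
  constructor <;> decide +kernel

theorem eC545b : C545.Ext [(0, 3), (0, 5), (1, 3), (1, 4), (1, 5), (2, 4), (3, 5)] :=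
  Red.ext_of_check check_C545 (by decide +kernel)

/-- The data of `C545` with coinciding labels. -/
theorem dC545c : Data C545 [(6, 17), (7, 16)] [(0, [12, 13, 14], 2), (17, [11, 10, 15], 3), (5, [], 17), (17, [], 16), (16, [], 4)] [] [(0, 3), (0, 4), (0, 5), (1, 3), (1, 4), (1, 5), (3, 5)] [(0, 2)] [(3, 5)] := by
  constructor <;> decide +kernel

theorem eC545c : C545.Ext [(0, 3), (0, 4), (0, 5), (1, 3), (1, 4), (1, 5), (3, 5)] :=
  Red.ext_of_check check_C545 (by decide +kernel)

/-- The data of `C545` with coinciding labels. -/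
theorem dC545d : Data C545 [(6, 17), (7, 16)] [(0, [12, 13, 14], 2), (17, [11, 10, 15], 3), (5, [], 17), (17, [], 16), (16, [], 4)] [] [(1, 3), (1, 4), (1, 5), (2, 3), (2, 4), (2, 5), (3, 5)] [(0, 2)] [(3, 5)] := by
  constructor <;> decide +kernel

theorem eC545d : C545.Ext [(1, 3), (1, 4), (1, 5), (2, 3), (2, 4), (2, 5), (3, 5)] :=
  Red.ext_of_check check_C545 (by decide +kernel)

/-- The data of `C45555` with coinciding labels. -/
theorem dC45555 : Data C45555 [(4, 16), (5, 15)] [(16, [9, 8, 14, 13], 1), (16, [17], 3), (16, [], 15), (15, [], 2)] [] [(0, 1), (0, 2), (0, 3), (1, 3)] [] [(1, 3)] := by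
  constructor <;> decide +kernel

theorem eC45555 : C45555.Ext [(0, 1), (0, 2), (0, 3), (1, 3)] :=
  Red.ext_of_check check_C45555 (by decide +kernel)

end Pool.Agent.T1Red
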