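import Pool.Agent.Work.MP_392c8e_co_t1.Reducer

/-!
# Reducers: the check in pieces
-/

namespace Pool.Agent.T1Red

/-- The colour patterns of the check. -/
def Red.pts (R : Red) : List Nat := ((pats R.nw 1 (R.t - 1)).map (4 * ·)).filter (okP R.nw 0)

/-- A piece of the check: `n` patterns from the pattern `a` on. -/
def piece (R : Red) (cert : List (List Nat)) (a n : Nat) : Bool :=
  checkL R ((R.pts.drop a).take n) ((cert.drop a).take n)

theorem checkL_split (R : Red) : ∀ (n : Nat) (ps : List Nat) (cert : List (List Nat)),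
    checkL R (ps.take n) (cert.take n) = true → checkL R (ps.drop n) (cert.drop n) = true →
      checkL R ps cert = true
  | 0, _, _, _, h => h
  | _ + 1, [], _, _, _ => rfl
  | _ + 1, _ :: _, [], h, _ => h
  | n + 1, p :: ps, rs :: rss, h1, h2 => by
    have h3 : (checkP R p rs && checkL R (ps.take n) (rss.take n)) = true := h1
    show (checkP R p rs && checkL R ps rss) = true
    rw [Bool.and_eq_true] at h3 ⊢
    exact ⟨h3.1, checkL_split R n ps rss h3.2 h2⟩

/-- The end of the check. -/
theorem piece_end {R : Red} {cert : List (List Nat)} {a n : Nat} (h : piece R cert a n = true)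
    (hn : R.pts.length ≤ a + n) : checkL R (R.pts.drop a) (cert.drop a) = true := by
  refine checkL_split R n _ _ h ?_
  rw [List.drop_drop, List.drop_eq_nil_of_le hn]
  rfl

/-- A piece in front. -/
theorem piece_cons {R : Red} {cert : List (List Nat)} {a n : Nat} (h : piece R cert a n = true)
    (h2 : checkL R (R.pts.drop (a + n)) (cert.drop (a + n)) = true) :
    checkL R (R.pts.drop a) (cert.drop a) = true := by
  refine checkL_split R n _ _ h ?_
  rw [List.drop_drop, List.drop_drop]
  exact h2

/-- The check from its pieces. -/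
theorem check_of {R : Red} {cert : List (List Nat)}
    (h : checkL R (R.pts.drop 0) (cert.drop 0) = true)
    (h2 : ((R.nw.all fun e => Nat.blt e.1 R.t && Nat.blt e.2 R.t) && Nat.blt 0 R.t &&
      (R.ed.all fun e => Nat.blt e.1 (R.t + R.m) && Nat.blt e.2 (R.t + R.m))) = true) :
    check R cert = true := by
  have h3 : checkL R R.pts cert = true := h
  unfold check
  rw [Bool.and_eq_true, Bool.and_eq_true] at h2
  obtain ⟨⟨h4, h5⟩, h6⟩ := h2
  rw [Bool.and_eq_true, Bool.and_eq_true, Bool.and_eq_true]
  exact ⟨⟨⟨h3, h4⟩, h5⟩, h6⟩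

end Pool.Agent.T1Red
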